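import Pool.Agent.V8H84.ST.Desc

/-!
# Pluricanonical forms as semistable orbifold tensors
-/

set_option autoImplicit false
set_option linter.overlappingInstances false
set_option linter.unusedSectionVars false

open FF Pool.Agent.W602.GT Pool.Agent.W603.LV Pool.Agent.Y172 Pool.Agent.Y191

namespace Pool.Agent.V8H84.ST

section pol

variable {n N : ℕ}

/-- the sign of a family of permutations -/
def sgn (p : Fin N → Equiv.Perm (Fin n)) : ℤ := ∏ b, ((Equiv.Perm.sign (p b) : ℤˣ) : ℤ)

/-- the index of a family of permutations -/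
def idx (p : Fin N → Equiv.Perm (Fin n)) : Fin (n * N) → Fin n := fun t =>
  p (finProdFinEquiv.symm t).2 (finProdFinEquiv.symm t).1

theorem sgn_mul_self (p : Fin N → Equiv.Perm (Fin n)) : sgn p * sgn p = 1 := by
  unfold sgn
  rw [← Finset.prod_mul_distrib]
  refine Finset.prod_eq_one fun b _ => ?_
  rw [← Units.val_mul, Int.units_mul_self, Units.val_one]

/-- products of determinants -/
theorem prod_det {R : Type*} [CommRing R] (A : Fin (n * N) → Fin n → R) :
    ∑ p : Fin N → Equiv.Perm (Fin n), (sgn p : R) * ∏ t, A t (idx p t) =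
      ∏ b, (Matrix.of fun i j => A (finProdFinEquiv (i, b)) j).det := by
  classical
  have h1 : ∀ b, (Matrix.of fun i j => A (finProdFinEquiv (i, b)) j).det =
      ∑ σ : Equiv.Perm (Fin n), ((Equiv.Perm.sign σ : ℤˣ) : ℤ) *
        ∏ i, A (finProdFinEquiv (i, b)) (σ i) := by
    intro b
    rw [← Matrix.det_transpose, Matrix.det_apply']
    rfl
  rw [Finset.prod_congr rfl fun b _ => h1 b, Finset.prod_univ_sum, Fintype.piFinset_univ]
  refine Finset.sum_congr rfl fun p _ => ?_
  rw [Finset.prod_mul_distrib]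
  unfold sgn
  rw [Int.cast_prod]
  congr 1
  rw [← Fintype.prod_equiv finProdFinEquiv (fun t : Fin n × Fin N =>
    A (finProdFinEquiv t) (p t.2 t.1)) (fun t => A t (idx p t)) (fun t => by
      unfold idx
      rw [Equiv.symm_apply_apply]), Fintype.prod_prod_type_right]

variable {s : ℕ}

/-- the contraction of the tensor `k` -/
noncomputable def conPol (k : Fin s) (n N : ℕ) : MvPolynomial (Idx (fun _ : Fin s => n * N) n) ℂ :=
  ∑ p : Fin N → Equiv.Perm (Fin n), MvPolynomial.C (sgn p : ℂ) * MvPolynomial.X ⟨k, idx p⟩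

theorem aeval_conPol {R : Type*} [CommRing R] [Algebra ℂ R] (k : Fin s)
    (x : Idx (fun _ : Fin s => n * N) n → R) :
    MvPolynomial.aeval x (conPol k n N) =
      ∑ p : Fin N → Equiv.Perm (Fin n), (sgn p : R) * x ⟨k, idx p⟩ := by
  unfold conPol
  rw [map_sum]
  refine Finset.sum_congr rfl fun p _ => ?_
  rw [map_mul, MvPolynomial.aeval_C, MvPolynomial.aeval_X, map_intCast]

theorem act_one {R : Type*} [CommRing R] {r : Fin s → ℕ} (x : Idx r n → R) :
    act (1 : Matrix (Fin n) (Fin n) R) x = x := by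
  classical
  funext I
  unfold act
  rw [Finset.sum_eq_single I.2]
  · rw [Finset.prod_eq_one fun i _ => Matrix.one_apply_eq _, one_mul]
  · intro J _ hJ
    obtain ⟨i, hi⟩ := Function.ne_iff.1 hJ
    rw [Finset.prod_eq_zero (Finset.mem_univ i), zero_mul]
    exact Matrix.one_apply_ne (Ne.symm hi)
  · intro h
    exact absurd (Finset.mem_univ _) h

theorem conPol_invariant (k : Fin s) (n N : ℕ) : IsInvariant (conPol k n N) N := by
  classical
  have h0 : ∀ z : Idx (fun _ : Fin s => n * N) n → ℂ, MvPolynomial.eval z (conPol k n N) =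
      ∑ p : Fin N → Equiv.Perm (Fin n), (sgn p : ℂ) * z ⟨k, idx p⟩ := fun z => by
    rw [← aeval_conPol, MvPolynomial.aeval_eq_eval]
  have h1 : ∀ (A : Matrix (Fin n) (Fin n) ℂ) (x : Idx (fun _ : Fin s => n * N) n → ℂ),
      MvPolynomial.eval (act A x) (conPol k n N) = ∑ J : Fin (n * N) → Fin n,
        (∏ b : Fin N, (A * (Matrix.of fun i j =>
          if i = J (finProdFinEquiv (j, b)) then 1 else 0)).det) * x ⟨k, J⟩ := by
    intro A x
    rw [h0]
    have h2 : ∀ p : Fin N → Equiv.Perm (Fin n), (sgn p : ℂ) * act A x ⟨k, idx p⟩ =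
        ∑ J : Fin (n * N) → Fin n, ((sgn p : ℂ) * ∏ t, A (idx p t) (J t)) * x ⟨k, J⟩ := by
      intro p
      change (sgn p : ℂ) * ∑ J : Fin (n * N) → Fin n, (∏ t, A (idx p t) (J t)) * x ⟨k, J⟩ = _
      rw [Finset.mul_sum]
      exact Finset.sum_congr rfl fun J _ => (mul_assoc _ _ _).symm
    rw [Finset.sum_congr rfl fun p _ => h2 p, Finset.sum_comm]
    refine Finset.sum_congr rfl fun J _ => ?_
    rw [← Finset.sum_mul]
    congr 1
    rw [prod_det (fun t j => A j (J t))]
    refine Finset.prod_congr rfl fun b _ => ?_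
    rw [← Matrix.det_transpose]
    congr 1
    refine Matrix.ext fun i j => ?_
    rw [Matrix.mul_apply]
    change A i (J (finProdFinEquiv (j, b))) =
      ∑ l, A i l * (if l = J (finProdFinEquiv (j, b)) then 1 else 0)
    rw [Finset.sum_eq_single (J (finProdFinEquiv (j, b)))]
    · rw [if_pos rfl, mul_one]
    · intro l _ hl
      rw [if_neg hl, mul_zero]
    · intro h
      exact absurd (Finset.mem_univ _) h
  intro A x
  have h2 := h1 1 x
  rw [act_one] at h2
  rw [h1, h2, Finset.mul_sum]
  refine Finset.sum_congr rfl fun J _ => ?_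
  rw [← mul_assoc]
  congr 1
  have h3 : A.det ^ N = ∏ _b : Fin N, A.det := by
    rw [Finset.prod_const, Finset.card_univ, Fintype.card_fin]
  rw [h3, ← Finset.prod_mul_distrib]
  refine Finset.prod_congr rfl fun b _ => ?_
  rw [Matrix.det_mul, Matrix.one_mul]

end pol

section tensor

variable {K : Type} [Field K] [Algebra ℂ K] {n : ℕ}

/-- the value of vector fields on a function -/
def evD (z : K) : Derivation ℂ K K →ₗ[K] K where
  toFun D := D z
  map_add' _ _ := rfl
  map_smul' _ _ := rfl

/-- the product of `N` determinants, with the factor `a` -/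
noncomputable def detT (N : ℕ) (x : Fin n → K) (a : K) :
    MultilinearMap K (fun _ : Fin (n * N) => Derivation ℂ K K) K :=
  ∑ p : Fin N → Equiv.Perm (Fin n), (a * (sgn p : K)) •
    (MultilinearMap.mkPiAlgebra K (Fin (n * N)) K).compLinearMap fun t => evD (x (idx p t))

theorem detT_apply (N : ℕ) (x : Fin n → K) (a : K) (D : Fin (n * N) → Derivation ℂ K K) :
    detT N x a D = a * ∏ b, (Matrix.of fun i j => D (finProdFinEquiv (i, b)) (x j)).det := by
  rw [← prod_det (fun t j => D t (x j)), Finset.mul_sum]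
  unfold detT
  rw [sum_apply]
  refine Finset.sum_congr rfl fun p _ => ?_
  rw [smul_apply, MultilinearMap.compLinearMap_apply,
    MultilinearMap.mkPiAlgebra_apply, smul_eq_mul, mul_assoc]
  rfl

theorem value_con {s N : ℕ} {x : Fin n → K} {E : Fin n → Derivation ℂ K K}
    (hE : ∀ i j, E i (x j) = if i = j then 1 else 0) (a : Fin s → K) (k : Fin s) :
    value (conPol k n N) (fun k => detT N x (a k)) E =
      (Fintype.card (Fin N → Equiv.Perm (Fin n)) : K) * a k := by
  classical
  unfold value
  rw [aeval_conPol]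
  have h1 : ∀ p : Fin N → Equiv.Perm (Fin n),
      (sgn p : K) * components (fun k => detT N x (a k)) E ⟨k, idx p⟩ = a k := by
    intro p
    change (sgn p : K) * detT N x (a k) (fun t => E (idx p t)) = a k
    rw [detT_apply]
    have h2 : ∏ b, (Matrix.of fun i j => E (idx p (finProdFinEquiv (i, b))) (x j)).det =
        (sgn p : K) := by
      unfold sgn
      rw [Int.cast_prod]
      refine Finset.prod_congr rfl fun b _ => ?_
      have h3 : (Matrix.of fun i j => E (idx p (finProdFinEquiv (i, b))) (x j)) =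
          (1 : Matrix (Fin n) (Fin n) K).submatrix (p b) id := by
        refine Matrix.ext fun i j => ?_
        change E (idx p (finProdFinEquiv (i, b))) (x j) = (1 : Matrix (Fin n) (Fin n) K) (p b i) j
        rw [hE, Matrix.one_apply]
        unfold idx
        rw [Equiv.symm_apply_apply]
      rw [h3, Matrix.det_permute, Matrix.det_one, mul_one]
    rw [h2]
    calc (sgn p : K) * (a k * (sgn p : K)) = ((sgn p * sgn p : ℤ) : K) * a k := by
          push_cast
          ring
      _ = a k := by rw [sgn_mul_self, Int.cast_one, one_mul]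
  rw [Finset.sum_congr rfl fun p _ => h1 p, Finset.sum_const, Finset.card_univ, nsmul_eq_mul]

variable {P : Place ℂ K} {yP : Fin n → K} {EP : Fin n → Derivation ℂ K K} {i0 : Fin n}

theorem geQ_reg {f : K} (h : P.Reg f) : GeQ P 0 f := by
  rcases h with h | h
  · exact Or.inl h
  · exact Or.inr (by exact_mod_cast h)

open scoped Classical in
/-- the order of a determinant in local coordinates -/
theorem block_ord (hl : Loc P yP EP i0) {G : Fin n → Derivation ℂ K K}
    (hG : ∀ i, DerReg P (G i)) :
    GeQ P (if ∀ i, DerLog P (G i) then 1 else 0) (Matrix.of fun i j => G i (yP j)).det := by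
  have hterm : ∀ c : ℚ, (∀ s : Equiv.Perm (Fin n), GeQ P c (∏ i, G (s i) (yP i))) →
      GeQ P c (Matrix.of fun i j => G i (yP j)).det := by
    intro c hc
    rw [Matrix.det_apply]
    refine GeQ.sum _ fun s _ => ?_
    rcases Int.units_eq_one_or (Equiv.Perm.sign s) with h3 | h3
    · rw [h3, one_smul]
      exact hc s
    · rw [h3]
      have h4 := (GeQ.const (P := P) (-1)).mul (hc s)
      rw [zero_add, map_neg, map_one, neg_one_mul] at h4
      rw [Units.neg_smul, one_smul]
      exact h4
  have hreg : ∀ i j, GeQ P 0 (G i (yP j)) := fun i j => geQ_reg (hG i _ (hl.reg j))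
  split_ifs with h
  · refine hterm 1 fun s => ?_
    have h1 : ∀ i, GeQ P (if i = i0 then 1 else 0) (G (s i) (yP i)) := by
      intro i
      split_ifs with hi
      · subst hi
        have h2 := geQ_reg (h (s i) (yP i))
        have h3 : GeQ P 1 (yP i) := Or.inr (by rw [hl.unif]; simp)
        have h4 := h2.mul h3
        rwa [div_mul_cancel₀ _ hl.ne, zero_add] at h4
      · exact hreg _ _
    have h2 := GeQ.prod Finset.univ fun i _ => h1 i
    rwa [Finset.sum_ite_eq' Finset.univ i0 (fun _ => (1 : ℚ)), if_pos (Finset.mem_univ _)] at h2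
  · refine hterm 0 fun s => ?_
    have h2 := GeQ.prod Finset.univ fun i _ => hreg (s i) i
    rwa [Finset.sum_const_zero] at h2

/-- **Pluricanonical forms are orbifold tensors.** -/
theorem detT_orbifold {M N : ℕ} {y : Fin (M + 1) → K} (hy : NormalModel y)
    (hn : Algebra.trdeg ℂ K = n) {Δ : Place ℂ K → ℚ} (hΔ0 : ∀ P, IsPrimeDivisor y P → 0 ≤ Δ P)
    (hΔ1 : ∀ P, IsPrimeDivisor y P → Δ P ≤ 1) {Φ : (Fin n → Derivation ℂ K K) → K}
    (hΦ : IsSection y n N (N • Δ) Φ) {x : Fin n → K} {E : Fin n → Derivation ℂ K K}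
    (hx : IsTranscendenceBasis ℂ x) (hE : ∀ i j, E i (x j) = if i = j then 1 else 0) :
    IsOrbifoldTensor y Δ 0 (detT N x (Φ E)) := by
  classical
  have hess := hy.ess
  intro P hP Q e hQ D S hD hS
  obtain ⟨yP, EP, i0, hl⟩ := exists_loc hn (hP.divisorial hy hn)
  -- local coordinates
  let T : Matrix (Fin n) (Fin n) K := Matrix.of fun i j => EP i (x j)
  have hT : Φ EP = T.det ^ N * Φ E := by
    rw [← hΦ.1]
    congr 1
    funext i
    exact (Pool.Agent.W73.PG.PULL.expand x hx E hE (EP i)).symm
  have hloc : detT N x (Φ E) D =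
      Φ EP * ∏ b, (Matrix.of fun i j => D (finProdFinEquiv (i, b)) (yP j)).det := by
    rw [detT_apply, hT]
    have h1 : ∀ b, (Matrix.of fun i j => D (finProdFinEquiv (i, b)) (x j)).det =
        (Matrix.of fun i j => D (finProdFinEquiv (i, b)) (yP j)).det * T.det := by
      intro b
      rw [← Matrix.det_mul]
      congr 1
      refine Matrix.ext fun i j => ?_
      rw [Matrix.mul_apply]
      change D (finProdFinEquiv (i, b)) (x j) = ∑ l, D (finProdFinEquiv (i, b)) (yP l) * EP l (x j)
      conv_lhs => rw [← Pool.Agent.W73.PG.PULL.expand yP hl.bas EP hl.dual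
        (D (finProdFinEquiv (i, b))), Pool.Agent.W73.PG.PULL.sum_app]
      rfl
    rw [Finset.prod_congr rfl fun b _ => h1 b, Finset.prod_mul_distrib, Finset.prod_const,
      Finset.card_univ, Fintype.card_fin]
    ring
  have hmain : GeQ P (-(N * Δ P) + ∑ b : Fin N,
      if ∀ i, DerLog P (D (finProdFinEquiv (i, b))) then 1 else 0) (detT N x (Φ E) D) := by
    rw [hloc]
    refine GeQ.mul ?_ (GeQ.prod _ fun b _ => block_ord hl fun i => hD _)
    have h2 := hΦ.2 P hP EP hl.pres
    rw [Pi.smul_apply, nsmul_eq_mul] at h2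
    exact h2
  -- the number of the blocks
  have hcount : (N : ℚ) - S.card ≤ ∑ b : Fin N,
      if ∀ i, DerLog P (D (finProdFinEquiv (i, b))) then 1 else 0 := by
    have h1 : (Finset.univ.filter fun b : Fin N =>
        ¬ ∀ i, DerLog P (D (finProdFinEquiv (i, b)))).card ≤ S.card := by
      have h2 : (Finset.univ.filter fun b : Fin N =>
          ¬ ∀ i, DerLog P (D (finProdFinEquiv (i, b)))) ⊆
          S.image fun t : Fin (n * N) => (finProdFinEquiv.symm t).2 := by
        intro b hb
        rw [Finset.mem_filter] at hb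
        obtain ⟨-, h3⟩ := hb
        push Not at h3
        obtain ⟨i, hi⟩ := h3
        rw [Finset.mem_image]
        refine ⟨finProdFinEquiv (i, b), ?_, by rw [Equiv.symm_apply_apply]⟩
        by_contra h4
        exact hi (hS _ h4)
      exact (Finset.card_le_card h2).trans Finset.card_image_le
    have h2 : (Finset.univ.filter fun b : Fin N =>
        ∀ i, DerLog P (D (finProdFinEquiv (i, b)))).card +
        (Finset.univ.filter fun b : Fin N =>
          ¬ ∀ i, DerLog P (D (finProdFinEquiv (i, b)))).card = N := by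
      rw [Finset.card_filter_add_card_filter_not, Finset.card_univ, Fintype.card_fin]
    rw [Finset.sum_boole]
    have h3 : (N : ℚ) ≤ (Finset.univ.filter fun b : Fin N =>
        ∀ i, DerLog P (D (finProdFinEquiv (i, b)))).card + S.card := by
      exact_mod_cast h2.symm.le.trans (Nat.add_le_add_left h1 _)
    linarith
  have hpos : (0 : ℚ) ≤ ∑ b : Fin N,
      if ∀ i, DerLog P (D (finProdFinEquiv (i, b))) then 1 else 0 :=
    Finset.sum_nonneg fun b _ => by split_ifs <;> norm_num
  have hfin : GeQ P (-(S.card * Δ P)) (detT N x (Φ E) D) := by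
    refine hmain.mono ?_
    have h0 := hΔ0 P hP
    have h1 := hΔ1 P hP
    rcases le_total (N : ℚ) S.card with h2 | h2
    · have h3 : ((N : ℚ) - S.card) * Δ P ≤ 0 :=
        mul_nonpos_of_nonpos_of_nonneg (by linarith) h0
      nlinarith
    · have h3 : ((N : ℚ) - S.card) * Δ P ≤ (N : ℚ) - S.card :=
        mul_le_of_le_one_right (by linarith) h1
      nlinarith
  rcases hfin with h1 | h1
  · exact Or.inl h1
  · right
    have h2 := hQ.2 (detT N x (Φ E) D)
    rw [Algebra.algebraMap_self, RingHom.id_apply] at h2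
    rw [h2]
    push_cast
    have h3 : (0 : ℚ) ≤ e := Nat.cast_nonneg _
    have h4 : (0 : Place ℂ K → ℚ) P = 0 := rfl
    rw [h4, mul_zero, zero_sub]
    exact mul_le_mul_of_nonneg_left h1 h3

/-- **The converse.** -/
theorem variation_of_kappa {M : ℕ} {y : Fin (M + 1) → K} (hy : NormalModel y)
    (hn : Algebra.trdeg ℂ K = n) {Δ : Place ℂ K → ℚ} (hΔ0 : ∀ P, IsPrimeDivisor y P → 0 ≤ Δ P)
    (hΔ1 : ∀ P, IsPrimeDivisor y P → Δ P ≤ 1) {c : ℕ} (h : KappaGe y n Δ c) :
    VariationGe y n Δ K c := by
  classical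
  have hcK : CharZero K := charZero_of_injective_algebraMap (algebraMap ℂ K).injective
  obtain ⟨N, hN, Φ, hΦ, D, hD, hind⟩ := h
  obtain ⟨x, E, hx, hE, hfr⟩ := exists_frame hn
  have hDE : ∀ l, Φ l D = (Matrix.of fun i j => D i (x j)).det ^ N * Φ l E := by
    intro l
    rw [← (hΦ l).1]
    congr 1
    funext i
    exact (Pool.Agent.W73.PG.PULL.expand x hx E hE (D i)).symm
  have hdet : (Matrix.of fun i j => D i (x j)).det ^ N ≠ 0 := by
    intro h0
    apply hD
    rw [hDE, h0, zero_mul]
  have hE0 : Φ 0 E ≠ 0 := by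
    intro h0
    apply hD
    rw [hDE, h0, mul_zero]
  have hcard : (Fintype.card (Fin N → Equiv.Perm (Fin n)) : K) ≠ 0 := by
    exact_mod_cast Fintype.card_ne_zero
  refine ⟨c + 1, fun _ => n * N, fun l => detT N x (Φ l E), N, fun l => conPol l n N, E,
    fun l => detT_orbifold hy hn hΔ0 hΔ1 (hΦ l) hx hE, hN, fun l => conPol_invariant l n N, ?_, ?_⟩
  · rw [value_con hE]
    exact mul_ne_zero hcard hE0
  · have h1 : (fun l : Fin c => value (conPol l.succ n N) (fun l => detT N x (Φ l E)) E /
        value (conPol (0 : Fin (c + 1)) n N) (fun l => detT N x (Φ l E)) E) =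
        fun l => Φ l.succ D / Φ 0 D := by
      funext l
      rw [value_con hE, value_con hE, hDE, hDE, mul_div_mul_left _ _ hcard,
        mul_div_mul_left _ _ hdet]
    rw [h1]
    exact hind

end tensor

end Pool.Agent.V8H84.ST
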