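import Pool.Agent.V8H84.ST.Inv
import Pool.Agent.Y172.Defs
import Pool.Agent.R887.DefsCP
import Pool.Agent.Helper386.D5V.Helper399_OverDefs

/-!
# Multivalued orbifold tensors on pairs: definitions
-/

set_option autoImplicit false

open FF Pool.Agent.W602.GT Pool.Agent.Y172

namespace Pool.Agent.V8H84.ST

section

variable {K : Type} [Field K] [Algebra ℂ K] {M : ℕ} {L : Type} [Field L] [Algebra ℂ L]
  [Algebra K L] [IsScalarTower ℂ K L]

/-- Let `K` be the function field of the variety `X` with generic point `y`, and let `L` be a finite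
extension of `K`. The multivalued covariant tensor `τ` of order `r` on `X` (a multilinear function
of `r` rational vector fields with values in `L`) is a section of `(Ω(X, Δ) ⊗ O(-Λ)) ^ ⊗ r`: for all
prime divisors `P` of `X` and all places `Q` of `L` over `P`, with ramification index `e`, the order
of `τ` at `Q`, on vector fields which are regular at `P`, is at least `e (r Λ_P - j Δ_P)`, if at most
`j` of the vector fields are not tangent to `P` (the others are logarithmic). For `L = K`, `Λ = 0` and
`Δ_P = 1 - 1 / m_P` these are the orbifold tensors of Campana, for `Δ_P = 1` the tensors with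
logarithmic poles. -/
def IsOrbifoldTensor (y : Fin (M + 1) → K) (Δ Λ : Place ℂ K → ℚ) {r : ℕ}
    (τ : MultilinearMap K (fun _ : Fin r => Derivation ℂ K K) L) : Prop :=
  ∀ P, IsPrimeDivisor y P → ∀ (Q : Place ℂ L) (e : ℕ), Over Q P e →
    ∀ (D : Fin r → Derivation ℂ K K) (S : Finset (Fin r)),
      (∀ i, DerReg P (D i)) → (∀ i, i ∉ S → DerLog P (D i)) →
        τ D = 0 ∨ e * (r * Λ P - S.card * Δ P) ≤ Q.ord (τ D)

/-- The values of the tensors `τ k` on the vector fields of the frame `D`. -/
def components {n s : ℕ} {r : Fin s → ℕ}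
    (τ : ∀ k, MultilinearMap K (fun _ : Fin (r k) => Derivation ℂ K K) L)
    (D : Fin n → Derivation ℂ K K) : Idx r n → L :=
  fun I => τ I.1 fun i => D (I.2 i)

/-- The value of the polynomial `F` in the components of the tensors `τ k`, a function of `n` rational
vector fields. -/
noncomputable def value {n s : ℕ} {r : Fin s → ℕ} (F : MvPolynomial (Idx r n) ℂ)
    (τ : ∀ k, MultilinearMap K (fun _ : Fin (r k) => Derivation ℂ K K) L) :
    (Fin n → Derivation ℂ K K) → L :=
  fun D => MvPolynomial.aeval (components τ D) F

/-- The Iitaka dimension of `K_X + Δ` is at least `c`: for some `m ≥ 1` there are `c + 1` sections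
of `m (K_X + Δ)` such that the quotients of the last `c` ones by the first one are algebraically
independent (for `c = 0`: there is a nonzero section). -/
def KappaGe (y : Fin (M + 1) → K) (n : ℕ) (Δ : Place ℂ K → ℚ) (c : ℕ) : Prop :=
  ∃ m : ℕ, 1 ≤ m ∧ ∃ Φ : Fin (c + 1) → (Fin n → Derivation ℂ K K) → K,
    (∀ l, IsSection y n m (m • Δ) (Φ l)) ∧ ∃ D, Φ 0 D ≠ 0 ∧
      AlgebraicIndependent ℂ fun l : Fin c => Φ l.succ D / Φ 0 D

/-- The multivalued orbifold tensors on `(X, Δ)` with values in `L` have the variation at least `c`:
there are a finite family of them, and `c + 1` relative invariants of the same weight `N ≥ 1`, such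
that the quotients of the values of the last `c` ones by the first one are algebraically independent.
(For `c = 0`: the family is semistable at the generic point of `X`, that is, some relative invariant
does not vanish at it.) -/
def VariationGe (y : Fin (M + 1) → K) (n : ℕ) (Δ : Place ℂ K → ℚ) (L : Type) [Field L]
    [Algebra ℂ L] [Algebra K L] [IsScalarTower ℂ K L] (c : ℕ) : Prop :=
  ∃ (s : ℕ) (r : Fin s → ℕ)
    (τ : ∀ k, MultilinearMap K (fun _ : Fin (r k) => Derivation ℂ K K) L) (N : ℕ)
    (F : Fin (c + 1) → MvPolynomial (Idx r n) ℂ) (D : Fin n → Derivation ℂ K K),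
    (∀ k, IsOrbifoldTensor y Δ 0 (τ k)) ∧ 1 ≤ N ∧ (∀ l, IsInvariant (F l) N) ∧
      value (F 0) τ D ≠ 0 ∧
      AlgebraicIndependent ℂ fun l : Fin c => value (F l.succ) τ D / value (F 0) τ D

end

end Pool.Agent.V8H84.ST
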