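import Pool.Agent.V8H84.ST.Ten

/-!
# The descent of multivalued sections
-/

set_option autoImplicit false
set_option linter.overlappingInstances false
set_option linter.unusedSectionVars false

open FF Pool.Agent.W602.GT Pool.Agent.W603.LV Pool.Agent.Y172 Pool.Agent.Y191
open Pool.Agent.W619.Y
open Pool.Agent.R887 (IsFunctionSection IitakaGe)

namespace Pool.Agent.V8H84.ST

section esy

theorem geQ_esy {Ω : Type} [Field Ω] [Algebra ℂ Ω] {ι : Type} [Fintype ι] {Q : Place ℂ Ω} {c : ℚ}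
    {f : ι → Ω} (h : ∀ i, GeQ Q c (f i)) (r : ℕ) : GeQ Q (r * c) (esy f r) := by
  classical
  unfold esy
  refine GeQ.sum _ fun T hT => ?_
  have hT' : T.card = r := (Finset.mem_powersetCard.1 hT).2
  have h1 := GeQ.prod (P := Q) T (f := f) (c := fun _ => c) fun i _ => h i
  rw [Finset.sum_const, hT', nsmul_eq_mul] at h1
  exact h1

theorem esy_smul {Ω : Type} [Field Ω] {ι : Type} [Fintype ι] (a : Ω) (f : ι → Ω) (r : ℕ) :
    esy (fun i => a * f i) r = a ^ r * esy f r := by
  classical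
  unfold esy
  rw [Finset.mul_sum]
  refine Finset.sum_congr rfl fun T hT => ?_
  rw [Finset.prod_mul_distrib, Finset.prod_const, (Finset.mem_powersetCard.1 hT).2]

end esy

section

variable {K L : Type} [Field K] [Algebra ℂ K] [Field L] [Algebra ℂ L] [Algebra K L]
  [IsScalarTower ℂ K L] [FiniteDimensional K L] {n M : ℕ} {y : Fin (M + 1) → K}

/-- **The descent of multivalued sections**, with algebraically independent ratios. -/
theorem desc_sections (hy : NormalModel y) (hn : Algebra.trdeg ℂ K = n) {c N : ℕ}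
    {D : Place ℂ K → ℚ} {f : Fin (c + 1) → (Fin n → Derivation ℂ K K) → L}
    (law : ∀ l (A : Matrix (Fin n) (Fin n) K) E,
      f l (fun i => ∑ j, A i j • E j) = algebraMap K L A.det ^ N * f l E)
    (hord : ∀ P, IsPrimeDivisor y P → ∀ (yP : Fin n → K) (EP : Fin n → Derivation ℂ K K)
      (i0 : Fin n), Loc P yP EP i0 → ∀ (Q : Place ℂ L) (e : ℕ), Over Q P e →
        ∀ l, GeQ Q (e * -(D P)) (f l EP))
    {E : Fin n → Derivation ℂ K K} (hE : ∀ l, f l E ≠ 0)
    (hind : AlgebraicIndependent ℂ (fun l : Fin c => f l.succ E / f 0 E)) :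
    ∃ R, 1 ≤ R ∧ ∃ Φ : Fin (c + 1) → (Fin n → Derivation ℂ K K) → K,
      (∀ j, IsSection y n (R * N) (R • D) (Φ j)) ∧ (∀ j, Φ j E ≠ 0) ∧
        AlgebraicIndependent ℂ (fun j : Fin c => Φ j.succ E / Φ 0 E) := by
  classical
  have hcK : CharZero K := charZero_of_injective_algebraMap (algebraMap ℂ K).injective
  let Ω := IntermediateField.normalClosure K L (AlgebraicClosure L)
  let ik : Algebra ℂ Ω := ((algebraMap K Ω).comp (algebraMap ℂ K)).toAlgebra
  have htow : IsScalarTower ℂ K Ω := IsScalarTower.of_algebraMap_eq fun _ => rfl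
  have hfin : FiniteDimensional K Ω := inferInstance
  have hnorm : Normal K Ω := inferInstance
  have hgal : IsGalois K Ω := IsGalois.mk
  obtain ⟨ι0⟩ : Nonempty (L →ₐ[K] Ω) := ⟨IsScalarTower.toAlgHom K L Ω⟩
  have hι : Fintype (L →ₐ[K] Ω) := Fintype.ofFinite _
  obtain ⟨R, t, r, q, hR, hrq, hne, hai⟩ := Pool.Agent.W513.PG.main ℂ Ω (L →ₐ[K] Ω) ι0 c
    (fun σ l => σ (f l E)) (fun l => by
      rw [Ne, map_eq_zero]
      exact hE l) (by
      have h1 : AlgebraicIndependent ℂ (fun l : Fin c => (ι0.restrictScalars ℂ)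
          (f l.succ E / f 0 E)) := hind.map' (f := ι0.restrictScalars ℂ) ι0.injective
      have h2 : (fun l : Fin c => ι0 (f l.succ E) / ι0 (f 0 E)) =
          fun l => (ι0.restrictScalars ℂ) (f l.succ E / f 0 E) := by
        funext l
        rw [AlgHom.restrictScalars_apply, map_div₀]
      change AlgebraicIndependent ℂ (fun l : Fin c => ι0 (f l.succ E) / ι0 (f 0 E))
      rw [h2]
      exact h1)
  -- the elements are invariant
  have hfix : ∀ (G : Fin n → Derivation ℂ K K) l r, ∃ z : K,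
      algebraMap K Ω z = esy (fun σ : L →ₐ[K] Ω => σ (f l G)) r := by
    intro G l r
    refine (IsGalois.mem_range_algebraMap_iff_fixed _).2 fun g => ?_
    have h1 : g (esy (fun σ : L →ₐ[K] Ω => σ (f l G)) r) =
        esy (fun σ : L →ₐ[K] Ω => g (σ (f l G))) r := by
      unfold esy
      rw [map_sum]
      exact Finset.sum_congr rfl fun T _ => map_prod _ _ _
    let s : (L →ₐ[K] Ω) ≃ (L →ₐ[K] Ω) :=
      { toFun := fun σ => (g : Ω →ₐ[K] Ω).comp σ
        invFun := fun σ => (g.symm : Ω →ₐ[K] Ω).comp σ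
        left_inv := fun σ => by
          ext x
          simp
        right_inv := fun σ => by
          ext x
          simp }
    rw [h1]
    exact esy_equiv (L := Ω) s (fun σ => σ (f l G)) r
  choose z hz using hfix
  have hPl : ∀ j, IsPluri (R * N) (fun G => z G (t j) (r j) ^ q j) := by
    intro j A G
    show z _ (t j) (r j) ^ q j = A.det ^ (R * N) * z G (t j) (r j) ^ q j
    have h1 : z (fun i => ∑ j, A i j • G j) (t j) (r j) =
        (A.det ^ N) ^ r j * z G (t j) (r j) := by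
      apply (algebraMap K Ω).injective
      rw [hz, map_mul, hz, map_pow, map_pow, ← esy_smul]
      congr 1
      funext σ
      rw [law, map_mul, map_pow, σ.commutes]
    rw [h1, mul_pow, ← pow_mul, ← pow_mul, hrq, mul_comm N R]
  refine ⟨R, hR, fun j G => z G (t j) (r j) ^ q j, fun j => ?_, fun j => ?_, ?_⟩
  · refine isSection_of_loc hy hn (hPl j) fun P hP yP EP i0 hl => ?_
    obtain ⟨Q', e', hQ'⟩ := exists_above (k := ℂ) (L := Ω) P
    have h1 : ∀ σ : L →ₐ[K] Ω, GeQ Q' (e' * -(D P)) (σ (f (t j) EP)) := by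
      intro σ
      obtain ⟨Q, e, e1, hQ, he1, hee, hord'⟩ := below_emb σ hQ'
      rcases hord P hP yP EP i0 hl Q e hQ (t j) with h2 | h2
      · left
        rw [h2, map_zero]
      · right
        rw [hord', hee]
        push_cast
        have : (0 : ℚ) ≤ e1 := Nat.cast_nonneg _
        calc (e1 : ℚ) * e * -(D P) = e1 * (e * -(D P)) := by ring
          _ ≤ e1 * Q.ord (f (t j) EP) := mul_le_mul_of_nonneg_left h2 this
    have h2 := (geQ_esy (Ω := Ω) h1 (r j)).pow (q j)
    rw [← hz, ← map_pow] at h2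
    rcases h2 with h3 | h3
    · exact Or.inl ((map_eq_zero _).1 h3)
    · right
      rw [hQ'.2] at h3
      push_cast at h3
      have h4 : (0 : ℚ) < e' := by exact_mod_cast hQ'.1
      refine le_of_mul_le_mul_left (le_trans (le_of_eq ?_) h3) h4
      have h5 : (R : ℚ) = r j * q j := by exact_mod_cast (hrq j).symm
      rw [Pi.smul_apply, nsmul_eq_mul, h5]
      ring
  · refine pow_ne_zero _ fun h0 => hne j ?_
    have h1 := hz E (t j) (r j)
    rw [h0, map_zero] at h1
    exact h1.symm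
  · have h1 : AlgebraicIndependent ℂ (fun j : Fin c => (IsScalarTower.toAlgHom ℂ K Ω)
        (z E (t j.succ) (r j.succ) ^ q j.succ / z E (t 0) (r 0) ^ q 0)) := by
      have h2 : (fun j : Fin c => (IsScalarTower.toAlgHom ℂ K Ω)
          (z E (t j.succ) (r j.succ) ^ q j.succ / z E (t 0) (r 0) ^ q 0)) = fun j : Fin c =>
          esy (fun i : L →ₐ[K] Ω => i (f (t j.succ) E)) (r j.succ) ^ q j.succ /
            esy (fun i : L →ₐ[K] Ω => i (f (t 0) E)) (r 0) ^ q 0 := by
        funext j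
        change algebraMap K Ω _ = _
        rw [map_div₀, map_pow, map_pow, hz, hz]
      rw [h2]
      exact hai
    exact AlgebraicIndependent.of_comp (IsScalarTower.toAlgHom ℂ K Ω) h1

/-- **The criterion for tensors**: sections of `K_X + Δ - n Λ`. -/
theorem tensor_section (hy : NormalModel y) (hn : Algebra.trdeg ℂ K = n) {Δ Λ : Place ℂ K → ℚ}
    {s : ℕ} {r : Fin s → ℕ}
    {τ : ∀ k, MultilinearMap K (fun _ : Fin (r k) => Derivation ℂ K K) L}
    (hτ : ∀ k, IsOrbifoldTensor y Δ Λ (τ k)) {N : ℕ} (hN : 1 ≤ N) {c : ℕ}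
    {F : Fin (c + 1) → MvPolynomial (Idx r n) ℂ} (hF : ∀ l, IsInvariant (F l) N)
    {D : Fin n → Derivation ℂ K K} (hD : value (F 0) τ D ≠ 0)
    (hind : AlgebraicIndependent ℂ (fun l : Fin c => value (F l.succ) τ D / value (F 0) τ D)) :
    ∃ m, 1 ≤ m ∧ ∃ Φ : Fin (c + 1) → (Fin n → Derivation ℂ K K) → K,
      (∀ j, IsSection y n m (m • (Δ - n • Λ)) (Φ j)) ∧ (∀ j, Φ j D ≠ 0) ∧
        AlgebraicIndependent ℂ (fun j : Fin c => Φ j.succ D / Φ 0 D) := by
  have hne : ∀ l, value (F l) τ D ≠ 0 := by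
    refine Fin.cases hD fun l h0 => ?_
    have h1 := hind.ne_zero l
    exact h1 (by simp only [h0, zero_div])
  obtain ⟨R, hR, Φ, h1, h2, h3⟩ := desc_sections (L := L) hy hn (N := N)
    (D := N • (Δ - n • Λ)) (f := fun l => value (F l) τ)
    (fun l A E => value_law (hF l) A E) (fun P hP yP EP i0 hl Q e hQ l => by
      refine (value_ord hl (fun k => hτ k P hP Q e hQ) (hF l)).mono (le_of_eq ?_)
      rw [coef_apply]
      ring) hne hind
  refine ⟨R * N, Nat.mul_pos hR hN, Φ, fun j => ?_, h2, h3⟩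
  rw [mul_smul]
  exact h1 j

/-- **The criterion for tensors**: the Iitaka dimension of `K_X + Δ`. -/
theorem tensor_kappa (hy : NormalModel y) (hn : Algebra.trdeg ℂ K = n) (hn1 : 1 ≤ n)
    {Δ Λ : Place ℂ K → ℚ} {s : ℕ} {r : Fin s → ℕ}
    {τ : ∀ k, MultilinearMap K (fun _ : Fin (r k) => Derivation ℂ K K) L}
    (hτ : ∀ k, IsOrbifoldTensor y Δ Λ (τ k)) {N : ℕ} (hN : 1 ≤ N)
    {F₀ : MvPolynomial (Idx r n) ℂ} (hF₀ : IsInvariant F₀ N)
    {D : Fin n → Derivation ℂ K K} (hD : value F₀ τ D ≠ 0) {m : ℕ} (hm : 1 ≤ m) {g₀ : K}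
    (hg₀ : IsFunctionSection y (m • Λ) g₀) (hg₀' : g₀ ≠ 0) {c : ℕ} {h : Fin c → L}
    (hind : AlgebraicIndependent ℂ h)
    (hh : ∀ l, (∃ F, IsInvariant F N ∧ h l = value F τ D / value F₀ τ D) ∨
      ∃ g, IsFunctionSection y (m • Λ) g ∧ h l = algebraMap K L (g / g₀)) :
    KappaGe y n Δ c := by
  classical
  have hsec : ∀ l, ∃ (F : MvPolynomial (Idx r n) ℂ) (g : K), IsInvariant F N ∧
      IsFunctionSection y (m • Λ) g ∧
      h l = (value F τ D * algebraMap K L g) / (value F₀ τ D * algebraMap K L g₀) := by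
    intro l
    have hg₁ : algebraMap K L g₀ ≠ 0 := by simpa using hg₀'
    rcases hh l with ⟨F, hF, hl⟩ | ⟨g, hg, hl⟩
    · exact ⟨F, g₀, hF, hg₀, by rw [hl, mul_div_mul_right _ _ hg₁]⟩
    · exact ⟨F₀, g, hF₀, hg, by rw [hl, mul_div_mul_left _ _ hD, map_div₀]⟩
  choose F g hF hg hhl using hsec
  -- products of sections
  let W : MvPolynomial (Idx r n) ℂ → K → (Fin n → Derivation ℂ K K) → L := fun F g G =>
    value F τ G * value F₀ τ G ^ (m - 1) * algebraMap K L (g * g₀ ^ (n * N - 1))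
  have hlaw : ∀ F g, IsInvariant F N → ∀ (A : Matrix (Fin n) (Fin n) K) G,
      W F g (fun i => ∑ j, A i j • G j) = algebraMap K L A.det ^ (N * m) * W F g G := by
    intro F g hF A G
    show value F τ _ * value F₀ τ _ ^ (m - 1) * _ = _ * (value F τ _ * value F₀ τ _ ^ (m - 1) * _)
    rw [value_law hF, value_law hF₀]
    obtain ⟨t, rfl⟩ : ∃ t, m = t + 1 := ⟨m - 1, by omega⟩
    rw [Nat.add_sub_cancel]
    ring
  have hord : ∀ F g, IsInvariant F N → IsFunctionSection y (m • Λ) g →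
      ∀ P, IsPrimeDivisor y P → ∀ (yP : Fin n → K) (EP : Fin n → Derivation ℂ K K)
      (i0 : Fin n), Loc P yP EP i0 → ∀ (Q : Place ℂ L) (e : ℕ), Over Q P e →
        GeQ Q (e * -(((N * m) • Δ) P)) (W F g EP) := by
    intro F g hF hg P hP yP EP i0 hl Q e hQ
    have h1 := value_ord hl (fun k => hτ k P hP Q e hQ) hF
    have h2 := (value_ord hl (fun k => hτ k P hP Q e hQ) hF₀).pow (m - 1)
    have h3 : ∀ g, IsFunctionSection y (m • Λ) g →
        GeQ Q (e * -(m * Λ P)) (algebraMap K L g) := by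
      intro g hg
      rcases hg with h4 | h4
      · exact Or.inl (by rw [h4, map_zero])
      · right
        have h5 := h4 P hP
        rw [Pi.smul_apply, nsmul_eq_mul] at h5
        rw [hQ.2]
        push_cast
        exact mul_le_mul_of_nonneg_left h5 (Nat.cast_nonneg _)
    have h4 := (h3 g hg).mul ((h3 g₀ hg₀).pow (n * N - 1))
    rw [← map_pow, ← map_mul] at h4
    refine ((h1.mul h2).mul h4).mono (le_of_eq ?_)
    have h6 : 1 ≤ n * N := Nat.mul_pos hn1 hN
    rw [Nat.cast_sub hm, Nat.cast_sub h6, Pi.smul_apply, nsmul_eq_mul]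
    push_cast
    ring
  let Fs : Fin (c + 1) → MvPolynomial (Idx r n) ℂ := Fin.cons F₀ F
  let gs : Fin (c + 1) → K := Fin.cons g₀ g
  have hFs : ∀ l, IsInvariant (Fs l) N := Fin.cases hF₀ hF
  have hgs : ∀ l, IsFunctionSection y (m • Λ) (gs l) := Fin.cases hg₀ hg
  have hratio : (fun l : Fin c => W (Fs l.succ) (gs l.succ) D / W (Fs 0) (gs 0) D) = h := by
    funext l
    rw [hhl l]
    have hg₁ : algebraMap K L g₀ ≠ 0 := by simpa using hg₀'
    simp only [W, Fs, gs, Fin.cons_succ, Fin.cons_zero, map_mul, map_pow]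
    field_simp
  have hW0 : W (Fs 0) (gs 0) D ≠ 0 := by
    have hg₁ : algebraMap K L g₀ ≠ 0 := by simpa using hg₀'
    simp only [W, Fs, gs, Fin.cons_zero, map_mul, map_pow]
    exact mul_ne_zero (mul_ne_zero hD (pow_ne_zero _ hD)) (mul_ne_zero hg₁ (pow_ne_zero _ hg₁))
  have hind' : AlgebraicIndependent ℂ
      (fun l : Fin c => W (Fs l.succ) (gs l.succ) D / W (Fs 0) (gs 0) D) := by
    rw [hratio]
    exact hind
  have hne : ∀ l, W (Fs l) (gs l) D ≠ 0 := by
    refine Fin.cases hW0 fun l h0 => ?_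
    exact hind'.ne_zero l (by simp only [h0, zero_div])
  obtain ⟨R, hR, Φ, h1, h2, h3⟩ := desc_sections (L := L) hy hn (N := N * m)
    (D := (N * m) • Δ) (f := fun l => W (Fs l) (gs l))
    (fun l A E => hlaw _ _ (hFs l) A E)
    (fun P hP yP EP i0 hl Q e hQ l => hord _ _ (hFs l) (hgs l) P hP yP EP i0 hl Q e hQ)
    hne hind'
  refine ⟨R * (N * m), Nat.mul_pos hR (Nat.mul_pos hN hm), Φ, fun l => ?_, D, h2 0, h3⟩
  rw [mul_smul]
  exact h1 l

end

end Pool.Agent.V8H84.ST
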