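import Mathlib

/-!
# Relative invariants of tensors
-/

set_option autoImplicit false
set_option linter.unusedSectionVars false

namespace Pool.Agent.V8H84.ST

open MvPolynomial

/-- The indices of the components of a family of `s` tensors of the orders `r k` on an
`n`-dimensional vector space. -/
abbrev Idx {s : ℕ} (r : Fin s → ℕ) (n : ℕ) : Type := Σ k : Fin s, (Fin (r k) → Fin n)

/-- The components of the tensors with the components `x` in the basis `e' i = ∑ j, A i j • e j`. -/
def act {R : Type*} [CommSemiring R] {s n : ℕ} {r : Fin s → ℕ} (A : Matrix (Fin n) (Fin n) R)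
    (x : Idx r n → R) : Idx r n → R :=
  fun I => ∑ J : Fin (r I.1) → Fin n, (∏ i, A (I.2 i) (J i)) * x ⟨I.1, J⟩

/-- The polynomial `F` in the components of the tensors is a relative invariant of weight `N`: it is
multiplied by `det A ^ N` under a change `A` of the basis. (The restrictions to the tensors of the
invariants of the special linear group which are homogeneous in each tensor are of this form.) -/
def IsInvariant {s n : ℕ} {r : Fin s → ℕ} (F : MvPolynomial (Idx r n) ℂ) (N : ℕ) : Prop :=
  ∀ (A : Matrix (Fin n) (Fin n) ℂ) (x : Idx r n → ℂ),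
    eval (act A x) F = A.det ^ N * eval x F

variable {s n : ℕ} {r : Fin s → ℕ}

theorem map_act {R S : Type*} [CommRing R] [CommRing S] (φ : R →+* S)
    (A : Matrix (Fin n) (Fin n) R) (x : Idx r n → R) (I : Idx r n) :
    φ (act A x I) = act (A.map φ) (fun I => φ (x I)) I := by
  unfold act
  rw [map_sum]
  refine Finset.sum_congr rfl fun J _ => ?_
  rw [map_mul, map_prod]
  rfl

/-- the invariance over all algebras over the complex numbers -/
theorem map_aeval_act {R S : Type*} [CommRing R] [CommRing S] [Algebra ℂ R] [Algebra ℂ S]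
    (φ : R →ₐ[ℂ] S) (F : MvPolynomial (Idx r n) ℂ) (N : ℕ) (A : Matrix (Fin n) (Fin n) R)
    (x : Idx r n → R) :
    φ (aeval (act A x) F) = aeval (act (A.map φ) fun I => φ (x I)) F ∧
      φ (A.det ^ N * aeval x F) = (A.map φ).det ^ N * aeval (fun I => φ (x I)) F := by
  have h0 : ∀ z : Idx r n → R, φ (aeval z F) = aeval (fun I => φ (z I)) F := by
    intro z
    exact congrArg (fun ψ : MvPolynomial (Idx r n) ℂ →ₐ[ℂ] S => ψ F) (comp_aeval z φ)
  constructor
  · rw [h0]
    congr 2
    funext I
    exact map_act (φ : R →+* S) A x I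
  · rw [map_mul, map_pow, h0]
    congr 2
    exact RingHom.map_det (φ : R →+* S) A

theorem IsInvariant.over {F : MvPolynomial (Idx r n) ℂ} {N : ℕ} (h : IsInvariant F N)
    {K : Type*} [CommRing K] [Algebra ℂ K] (A : Matrix (Fin n) (Fin n) K) (x : Idx r n → K) :
    aeval (act A x) F = A.det ^ N * aeval x F := by
  -- the generic matrix and the generic tensors
  let V := (Fin n × Fin n) ⊕ Idx r n
  let A₀ : Matrix (Fin n) (Fin n) (MvPolynomial V ℂ) := Matrix.of fun i j => X (Sum.inl (i, j))
  let x₀ : Idx r n → MvPolynomial V ℂ := fun I => X (Sum.inr I)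
  have hgen : aeval (act A₀ x₀) F = A₀.det ^ N * aeval x₀ F := by
    apply MvPolynomial.funext
    intro p
    obtain ⟨h1, h2⟩ := map_aeval_act (aeval p : MvPolynomial V ℂ →ₐ[ℂ] ℂ) F N A₀ x₀
    have h3 : ∀ G : MvPolynomial V ℂ, eval p G = aeval p G := fun G => by
      rw [aeval_eq_eval]
    rw [h3, h3, h1, h2]
    have h4 := h (A₀.map (aeval p : MvPolynomial V ℂ →ₐ[ℂ] ℂ)) fun I => aeval p (x₀ I)
    have h5 : ∀ z : Idx r n → ℂ, aeval z F = eval z F := fun z => by
      rw [aeval_eq_eval]
    rw [h5, h5]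
    exact h4
  obtain ⟨h1, h2⟩ := map_aeval_act
    (aeval (Sum.elim (fun ij => A ij.1 ij.2) x) : MvPolynomial V ℂ →ₐ[ℂ] K) F N A₀ x₀
  rw [hgen, h2] at h1
  have h3 : A₀.map (aeval (Sum.elim (fun ij => A ij.1 ij.2) x) : MvPolynomial V ℂ →ₐ[ℂ] K) = A := by
    ext i j
    simp [A₀]
  have h4 : (fun I => (aeval (Sum.elim (fun ij => A ij.1 ij.2) x) : MvPolynomial V ℂ →ₐ[ℂ] K)
      (x₀ I)) = x := by
    funext I
    simp [x₀]
  rw [h3, h4] at h1
  exact h1.symm

/-- how often an index occurs -/
def cnt (i0 : Fin n) (I : Idx r n) : ℕ := (Finset.univ.filter fun i => I.2 i = i0).card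

/-- **Every index occurs `N` times** in each monomial of a relative invariant of weight `N`. -/
theorem IsInvariant.sum_cnt {F : MvPolynomial (Idx r n) ℂ} {N : ℕ} (h : IsInvariant F N)
    (i0 : Fin n) {m : Idx r n →₀ ℕ} (hm : m ∈ F.support) : ∑ I, m I * cnt i0 I = N := by
  classical
  set A : Matrix (Fin n) (Fin n) ℂ := Matrix.diagonal fun i => if i = i0 then 2 else 1 with hA
  have hact : ∀ x : Idx r n → ℂ, act A x = fun I => 2 ^ cnt i0 I * x I := by
    intro x
    funext I
    unfold act
    rw [Finset.sum_eq_single I.2]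
    · congr 1
      rw [cnt, ← Finset.prod_const, Finset.prod_filter]
      refine Finset.prod_congr rfl fun i _ => ?_
      rw [hA, Matrix.diagonal_apply_eq]
    · intro J _ hJ
      obtain ⟨i, hi⟩ := Function.ne_iff.1 hJ
      rw [Finset.prod_eq_zero (Finset.mem_univ i), zero_mul]
      rw [hA, Matrix.diagonal_apply_ne _ (Ne.symm hi)]
    · intro h
      exact absurd (Finset.mem_univ _) h
  have hdet : A.det = 2 := by
    rw [hA, Matrix.det_diagonal, Finset.prod_ite_eq' Finset.univ i0 (fun _ => (2 : ℂ)),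
      if_pos (Finset.mem_univ _)]
  set G : MvPolynomial (Idx r n) ℂ := ∑ m ∈ F.support,
    monomial m (coeff m F * 2 ^ ∑ I, m I * cnt i0 I) with hG
  have hGF : G = C ((2 : ℂ) ^ N) * F := by
    apply MvPolynomial.funext
    intro x
    have h1 := h A x
    rw [hact, hdet] at h1
    rw [eval_mul, eval_C, ← h1, hG, map_sum, eval_eq']
    refine Finset.sum_congr rfl fun m _ => ?_
    rw [eval_monomial, mul_assoc]
    congr 1
    rw [Finsupp.prod_fintype _ _ (fun I => pow_zero _), ← Finset.prod_pow_eq_pow_sum,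
      ← Finset.prod_mul_distrib]
    refine Finset.prod_congr rfl fun I _ => ?_
    rw [mul_pow, ← pow_mul, mul_comm (m I)]
  have h2 : coeff m G = coeff m F * 2 ^ ∑ I, m I * cnt i0 I := by
    rw [hG, coeff_sum, Finset.sum_eq_single m]
    · rw [coeff_monomial, if_pos rfl]
    · intro m' _ hm'
      rw [coeff_monomial, if_neg hm']
    · intro h
      exact absurd hm h
  rw [hGF, coeff_C_mul, mul_comm] at h2
  have h3 := mul_left_cancel₀ (mem_support_iff.1 hm) h2
  have h4 : (2 : ℕ) ^ N = 2 ^ ∑ I, m I * cnt i0 I := by exact_mod_cast h3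
  exact (Nat.pow_right_injective le_rfl h4).symm

/-- the sum of the numbers of the occurrences of the indices -/
theorem sum_cnt_index (I : Idx r n) : ∑ i0, cnt i0 I = r I.1 := by
  classical
  unfold cnt
  rw [← Finset.card_eq_sum_card_fiberwise (s := Finset.univ) (t := Finset.univ)
    (f := fun i => I.2 i) (fun _ _ => Finset.mem_coe.2 (Finset.mem_univ _)), Finset.card_univ,
    Fintype.card_fin]

theorem IsInvariant.sum_order {F : MvPolynomial (Idx r n) ℂ} {N : ℕ} (h : IsInvariant F N)
    {m : Idx r n →₀ ℕ} (hm : m ∈ F.support) : ∑ I, m I * r I.1 = n * N := by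
  have h1 : ∑ I, m I * r I.1 = ∑ i0 : Fin n, ∑ I, m I * cnt i0 I := by
    rw [Finset.sum_comm]
    refine Finset.sum_congr rfl fun I _ => ?_
    rw [← Finset.mul_sum, sum_cnt_index]
  rw [h1, Finset.sum_congr rfl fun i0 _ => h.sum_cnt i0 hm, Finset.sum_const, Finset.card_univ,
    Fintype.card_fin, smul_eq_mul]

end Pool.Agent.V8H84.ST
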