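import Pool.Agent.V8H84.ST.Multi
import Pool.Agent.V8H84.ST.Conv

/-!
# Nonvanishing and semistable orbifold tensors
-/

set_option autoImplicit false
set_option linter.overlappingInstances false
set_option linter.unusedSectionVars false

open FF Pool.Agent.W602.GT Pool.Agent.W603.LV Pool.Agent.Y172 Pool.Agent.Y191

namespace Pool.Agent.V8H84.ST

section

variable {K : Type} [Field K] [Algebra ℂ K] {n M : ℕ} {y : Fin (M + 1) → K}

theorem lc_le_one (hy : NormalModel y) (hn : Algebra.trdeg ℂ K = n) {Δ : Place ℂ K → ℚ}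
    (hLC : LogCanonical y n Δ) {P : Place ℂ K} (hP : IsPrimeDivisor y P) : Δ P ≤ 1 := by
  obtain ⟨r, hr, η, -, h1, h2⟩ := hLC P (hP.divisorial hy hn)
  obtain ⟨-, E, hE, hne, hord⟩ := h1 P hP fun f hf => localRing_reg hf
  have h3 := (h2 E hE).resolve_left hne
  rw [hord] at h3
  have h4 : (0 : ℚ) < r := by exact_mod_cast hr
  by_contra h5
  push Not at h5
  nlinarith

/-- **Nonvanishing and semistable tensors**: the first part. -/
theorem variation_kappa (hy : NormalModel y) (hn : Algebra.trdeg ℂ K = n) {Δ : Place ℂ K → ℚ}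
    {L : Type} [Field L] [Algebra ℂ L] [Algebra K L] [IsScalarTower ℂ K L]
    [FiniteDimensional K L] {c : ℕ} (h : VariationGe y n Δ L c) : KappaGe y n Δ c := by
  obtain ⟨s, r, τ, N, F, D, hτ, hN, hF, hD, hind⟩ := h
  obtain ⟨m, hm, Φ, h1, h2, h3⟩ := tensor_section (L := L) hy hn hτ hN hF hD hind
  refine ⟨m, hm, Φ, fun l => ?_, D, h2 0, h3⟩
  have h4 := h1 l
  rwa [smul_zero, sub_zero] at h4

theorem nonvanishing_iff (hy : NormalModel y) (hn : Algebra.trdeg ℂ K = n)
    {Δ : Place ℂ K → ℚ} (hΔ : Effective y Δ) (hΔ1 : ∀ P, IsPrimeDivisor y P → Δ P ≤ 1) :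
    0 ≤ kodairaDim y n Δ ↔ VariationGe y n Δ K 0 := by
  constructor
  · intro h
    exact variation_of_kappa hy hn hΔ.1 hΔ1 (kappaGe_zero h)
  · intro h
    have h1 := (variation_kappa hy hn h).le hy hn hΔ
    exact_mod_cast h1

end

end Pool.Agent.V8H84.ST
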