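import Pool.Agent.V8H84.ST.Desc

/-!
# Multivalued one-forms
-/

set_option autoImplicit false
set_option linter.overlappingInstances false
set_option linter.unusedSectionVars false

open FF Pool.Agent.W602.GT Pool.Agent.W603.LV Pool.Agent.Y172 Pool.Agent.Y191
open Pool.Agent.R887 (IsFunctionSection IitakaGe)

namespace Pool.Agent.V8H84.ST

open Module

section rows

open Matrix in
/-- A matrix with a left inverse has an invertible submatrix. -/
theorem exists_rows' {K ι : Type} [Field K] [Fintype ι] {k : ℕ} (Y : Matrix ι (Fin k) K)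
    (L : Matrix (Fin k) ι K)
    (h : L * Y = 1) : ∃ f : Fin k → ι, (Y.submatrix f id).det ≠ 0 := by
  obtain ⟨κ, a, ha, hspan, hli⟩ := exists_linearIndependent' K Y
  have htop : Submodule.span K (Set.range Y) = ⊤ := by
    rw [eq_top_iff]
    rintro v -
    have h1 : v = ∑ i, (v ᵥ* L) i • Y i := by
      have h2 : v = (v ᵥ* L) ᵥ* Y := by rw [vecMul_vecMul, h, vecMul_one]
      conv_lhs => rw [h2]
      funext j
      simp [vecMul, dotProduct, Finset.sum_apply]
    rw [h1]
    exact Submodule.sum_mem _ fun i _ => Submodule.smul_mem _ _ (Submodule.subset_span ⟨i, rfl⟩)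
  rw [htop] at hspan
  have hb : Module.Basis κ K (Fin k → K) := Module.Basis.mk hli (by rw [hspan])
  have hfin : Finite κ := Finite.of_injective a ha
  let _ : Fintype κ := Fintype.ofFinite κ
  have hcard : Fintype.card κ = k := by
    have h3 := Module.finrank_eq_card_basis hb
    rw [Module.finrank_fin_fun] at h3
    exact h3.symm
  let e : Fin k ≃ κ := (Fintype.equivFinOfCardEq hcard).symm
  refine ⟨a ∘ e, ?_⟩
  have h4 : LinearIndependent K (Y.submatrix (a ∘ e) id).row := by
    have h5 := hli.comp e e.injective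
    exact h5
  have h6 := Matrix.linearIndependent_rows_iff_isUnit.1 h4
  exact ((Matrix.isUnit_iff_isUnit_det _).1 h6).ne_zero

end rows

section algebra

variable {K L Ω : Type} [Field K] [Field L] [Field Ω] [Algebra K L] [Algebra K Ω]
  [FiniteDimensional K L] [CharZero K]

/-- **The conjugates of functions without common zeros.** -/
theorem exists_conj {s n : ℕ} (hsp : ∀ x : L, ((minpoly K x).map (algebraMap K Ω)).Splits)
    {x : Fin s → Fin n → L} (hx : ∀ v : Fin n → K, (∀ k, ∑ j, v j • x k j = 0) → v = 0) :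
    ∃ (t : Fin n → (L →ₐ[K] Ω)) (κ : Fin n → Fin s),
      (Matrix.of fun i j => t i (x (κ i) j)).det ≠ 0 := by
  classical
  let b := finBasis K L
  have hcard : Fintype.card (L →ₐ[K] Ω) = finrank K L := AlgHom.card_of_splits K L Ω hsp
  let φ : Fin (finrank K L) ≃ (L →ₐ[K] Ω) := (Fintype.equivFinOfCardEq hcard).symm
  -- the matrix of the conjugates of a basis
  set E : Matrix (Fin (finrank K L)) (Fin (finrank K L)) Ω := Matrix.of fun i k => φ i (b k) with hE
  have hEunit : IsUnit E.det := by
    rw [← Matrix.isUnit_iff_isUnit_det, ← Matrix.linearIndependent_rows_iff_isUnit]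
    rw [Fintype.linearIndependent_iff]
    intro c hc
    have h1 := (linearIndependent_algHom_toLinearMap K L Ω).comp φ φ.injective
    rw [Fintype.linearIndependent_iff] at h1
    refine h1 c ?_
    apply b.ext
    intro k
    have h2 := congrFun hc k
    rw [Finset.sum_apply] at h2
    rw [LinearMap.sum_apply, LinearMap.zero_apply]
    exact h2
  -- the coordinates
  set X : Matrix (Fin s × Fin (finrank K L)) (Fin n) K :=
    Matrix.of fun ki j => b.repr (x ki.1 j) ki.2 with hX
  obtain ⟨Y, hY⟩ : ∃ Y : Matrix (Fin n) (Fin s × Fin (finrank K L)) K, Y * X = 1 := by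
    have hinj : Function.Injective (Matrix.mulVecLin X) := by
      rw [← LinearMap.ker_eq_bot, LinearMap.ker_eq_bot']
      intro v hv
      refine hx v fun l => ?_
      apply b.repr.injective
      ext k
      have h1 := congrFun hv (l, k)
      rw [Matrix.mulVecLin_apply] at h1
      change ∑ j, X (l, k) j * v j = 0 at h1
      rw [map_sum, map_zero, Finsupp.zero_apply, Finsupp.finsetSum_apply]
      simp only [map_smul, Finsupp.smul_apply, smul_eq_mul]
      rw [← h1]
      exact Finset.sum_congr rfl fun j _ => mul_comm _ _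
    obtain ⟨g, hg⟩ := LinearMap.exists_leftInverse_of_injective _ (LinearMap.ker_eq_bot.2 hinj)
    refine ⟨LinearMap.toMatrix' g, ?_⟩
    have h1 : LinearMap.toMatrix' (g ∘ₗ Matrix.mulVecLin X) = LinearMap.toMatrix' g * X := by
      rw [LinearMap.toMatrix'_comp]
      congr 1
      exact LinearMap.toMatrix'_toLin' _
    rw [← h1, hg, LinearMap.toMatrix'_id]
  -- the matrix of all conjugates
  set Z : Matrix (Fin s × Fin (finrank K L)) (Fin n) Ω :=
    Matrix.of fun ki j => φ ki.2 (x ki.1 j) with hZ
  have hEX : ∀ k i j, Z (k, i) j = ∑ l, E i l * algebraMap K Ω (X (k, l) j) := by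
    intro k i j
    change φ i (x k j) = ∑ l, φ i (b l) * algebraMap K Ω (b.repr (x k j) l)
    conv_lhs => rw [← b.sum_repr (x k j), map_sum]
    refine Finset.sum_congr rfl fun l _ => ?_
    rw [map_smul, Algebra.smul_def, mul_comm]
  let W : Matrix (Fin n) (Fin s × Fin (finrank K L)) Ω :=
    Matrix.of fun j ki => ∑ l, algebraMap K Ω (Y j (ki.1, l)) * E⁻¹ l ki.2
  have hWZ : W * Z = 1 := by
    refine Matrix.ext fun j j' => ?_
    rw [Matrix.mul_apply, Fintype.sum_prod_type]
    have h1 : ∀ k, ∑ i, W j (k, i) * Z (k, i) j' =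
        ∑ l, algebraMap K Ω (Y j (k, l)) * algebraMap K Ω (X (k, l) j') := by
      intro k
      have h2 : ∑ i, W j (k, i) * Z (k, i) j' = ∑ l, ∑ l', algebraMap K Ω (Y j (k, l)) *
          (∑ i, E⁻¹ l i * E i l') * algebraMap K Ω (X (k, l') j') := by
        have h3 : ∀ i, W j (k, i) * Z (k, i) j' = ∑ l, ∑ l', algebraMap K Ω (Y j (k, l)) *
            (E⁻¹ l i * E i l') * algebraMap K Ω (X (k, l') j') := by
          intro i
          rw [hEX]
          change (∑ l, algebraMap K Ω (Y j (k, l)) * E⁻¹ l i) * _ = _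
          rw [Finset.sum_mul]
          refine Finset.sum_congr rfl fun l _ => ?_
          rw [Finset.mul_sum]
          refine Finset.sum_congr rfl fun l' _ => ?_
          ring
        rw [Finset.sum_congr rfl fun i _ => h3 i, Finset.sum_comm]
        refine Finset.sum_congr rfl fun l _ => ?_
        rw [Finset.sum_comm]
        refine Finset.sum_congr rfl fun l' _ => ?_
        rw [Finset.mul_sum, Finset.sum_mul]
      rw [h2]
      refine Finset.sum_congr rfl fun l _ => ?_
      have h4 : ∀ l', ∑ i, E⁻¹ l i * E i l' = (1 : Matrix _ _ Ω) l l' := by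
        intro l'
        rw [← Matrix.mul_apply, Matrix.nonsing_inv_mul _ hEunit]
      rw [Finset.sum_congr rfl fun l' _ => by rw [h4]]
      rw [Finset.sum_eq_single l]
      · rw [Matrix.one_apply_eq, mul_one]
      · intro l' _ hl'
        rw [Matrix.one_apply_ne (Ne.symm hl'), mul_zero, zero_mul]
      · intro h
        exact absurd (Finset.mem_univ _) h
    rw [Finset.sum_congr rfl fun k _ => h1 k]
    have h5 : ∑ k, ∑ l, algebraMap K Ω (Y j (k, l)) * algebraMap K Ω (X (k, l) j') =
        algebraMap K Ω ((Y * X) j j') := by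
      rw [Matrix.mul_apply, Fintype.sum_prod_type, map_sum]
      refine Finset.sum_congr rfl fun k _ => ?_
      rw [map_sum]
      exact Finset.sum_congr rfl fun l _ => (map_mul _ _ _).symm
    rw [h5, hY]
    by_cases hjj : j = j'
    · subst hjj
      rw [Matrix.one_apply_eq, Matrix.one_apply_eq, map_one]
    · rw [Matrix.one_apply_ne hjj, Matrix.one_apply_ne hjj, map_zero]
  obtain ⟨f, hdet⟩ := Pool.Agent.V8H84.ST.exists_rows' Z W hWZ
  exact ⟨fun i => φ (f i).2, fun i => (f i).1, hdet⟩

end algebra

section det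

/-- the determinant of `n` one-forms -/
noncomputable def detPol (n : ℕ) : MvPolynomial (Idx (fun _ : Fin n => 1) n) ℂ :=
  (Matrix.of fun i j => MvPolynomial.X ⟨i, fun _ => j⟩).det

theorem aeval_detPol {R : Type*} [CommRing R] [Algebra ℂ R] {n : ℕ}
    (x : Idx (fun _ : Fin n => 1) n → R) :
    MvPolynomial.aeval x (detPol n) = (Matrix.of fun i j => x ⟨i, fun _ => j⟩).det := by
  unfold detPol
  rw [AlgHom.map_det]
  congr 1
  refine Matrix.ext fun i j => ?_
  exact MvPolynomial.aeval_X _ _

theorem detPol_invariant (n : ℕ) : IsInvariant (detPol n) 1 := by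
  intro A x
  have h0 : ∀ z : Idx (fun _ : Fin n => 1) n → ℂ, MvPolynomial.eval z (detPol n) =
      (Matrix.of fun i j => z ⟨i, fun _ => j⟩).det := fun z => by
    rw [← aeval_detPol, MvPolynomial.aeval_eq_eval]
  rw [h0, h0, pow_one]
  have h1 : (Matrix.of fun i j => act A x ⟨i, fun _ => j⟩) =
      (Matrix.of fun i j => x ⟨i, fun _ => j⟩) * A.transpose := by
    refine Matrix.ext fun i j => ?_
    rw [Matrix.mul_apply]
    change ∑ J : Fin 1 → Fin n, (∏ l, A j (J l)) * x ⟨i, J⟩ =
      ∑ k, x ⟨i, fun _ => k⟩ * A j k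
    refine Fintype.sum_equiv (Equiv.funUnique (Fin 1) (Fin n)) _ _ fun J => ?_
    have h2 : J = fun _ => J 0 := by
      funext l
      rw [Subsingleton.elim l 0]
    rw [Fin.prod_univ_one, mul_comm]
    congr 1
    rw [h2]
    rfl
  rw [h1, Matrix.det_mul, Matrix.det_transpose, mul_comm]

end det

section

variable {K L : Type} [Field K] [Algebra ℂ K] [Field L] [Algebra ℂ L] [Algebra K L]
  [IsScalarTower ℂ K L] [FiniteDimensional K L] {n M : ℕ} {y : Fin (M + 1) → K}

/-- **The criterion for multivalued one-forms.** -/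
theorem forms_main (hy : NormalModel y) (hn : Algebra.trdeg ℂ K = n) (hn1 : 1 ≤ n)
    {Δ Λ : Place ℂ K → ℚ} {s : ℕ}
    {ω : Fin s → MultilinearMap K (fun _ : Fin 1 => Derivation ℂ K K) L}
    (hω : ∀ k, IsOrbifoldTensor y Δ Λ (ω k))
    (hinj : ∀ D : Derivation ℂ K K, (∀ k, ω k (fun _ => D) = 0) → D = 0) :
    (∃ m, 1 ≤ m ∧ ∃ (Φ : (Fin n → Derivation ℂ K K) → K) (D : Fin n → Derivation ℂ K K),
      IsSection y n m (m • (Δ - n • Λ)) Φ ∧ Φ D ≠ 0) ∧
    ∀ c, Pool.Agent.R887.IitakaGe y Λ c → KappaGe y n Δ c := by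
  classical
  have hcK : CharZero K := charZero_of_injective_algebraMap (algebraMap ℂ K).injective
  let Ω := IntermediateField.normalClosure K L (AlgebraicClosure L)
  let ik : Algebra ℂ Ω := ((algebraMap K Ω).comp (algebraMap ℂ K)).toAlgebra
  have htow : IsScalarTower ℂ K Ω := IsScalarTower.of_algebraMap_eq fun _ => rfl
  have hfin : FiniteDimensional K Ω := inferInstance
  have hnorm : Normal K Ω := inferInstance
  obtain ⟨x, E, hx, hE, hfr⟩ := exists_frame hn
  have ι0 : L →ₐ[K] Ω := IsScalarTower.toAlgHom K L Ω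
  obtain ⟨t, κ, ht⟩ := exists_conj (K := K) (L := L) (Ω := Ω)
    (x := fun k j => ω k (fun _ => E j)) (fun z => by
    have h1 := hnorm.splits (ι0 z)
    rwa [minpoly.algHom_eq ι0 ι0.injective] at h1) (by
    intro v hv
    have h1 : ∑ j, v j • E j = 0 := by
      refine hinj _ fun k => ?_
      have h2 : ω k (fun _ => ∑ j, v j • E j) = ∑ j, v j • ω k (fun _ => E j) := by
        let ℓ : Derivation ℂ K K →ₗ[K] L :=
          { toFun := fun D => ω k (fun _ => D)
            map_add' := fun D D' => by
              have h3 := (ω k).map_update_add (fun _ => D) 0 D D'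
              have h4 : ∀ D'' : Derivation ℂ K K,
                  Function.update (fun _ : Fin 1 => D) 0 D'' = fun _ => D'' := by
                intro D''
                funext i
                rw [Subsingleton.elim i 0, Function.update_self]
              rw [h4, h4, h4] at h3
              exact h3
            map_smul' := fun a D => by
              have h3 := (ω k).map_update_smul (fun _ => D) 0 a D
              have h4 : ∀ D'' : Derivation ℂ K K,
                  Function.update (fun _ : Fin 1 => D) 0 D'' = fun _ => D'' := by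
                intro D''
                funext i
                rw [Subsingleton.elim i 0, Function.update_self]
              rw [h4, h4] at h3
              exact h3 }
        change ℓ (∑ j, v j • E j) = ∑ j, v j • ℓ (E j)
        rw [map_sum]
        exact Finset.sum_congr rfl fun j _ => map_smul _ _ _
      rw [h2]
      exact hv k
    funext j
    have h2 : (∑ i, v i • E i) (x j) = 0 := by
      rw [h1]
      rfl
    rw [Pool.Agent.W73.PG.PULL.sum_app] at h2
    change ∑ i, v i * E i (x j) = 0 at h2
    rw [Finset.sum_eq_single j, hE, if_pos rfl, mul_one] at h2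
    · exact h2
    · intro i _ hi
      rw [hE, if_neg hi, mul_zero]
    · intro h
      exact absurd (Finset.mem_univ _) h)
  -- the conjugate forms
  let τ : ∀ i : Fin n, MultilinearMap K (fun _ : Fin 1 => Derivation ℂ K K) Ω := fun i =>
    (t i).toLinearMap.compMultilinearMap (ω (κ i))
  have hτ : ∀ i, IsOrbifoldTensor y Δ Λ (τ i) := by
    intro i P hP Q' e' hQ' D S hD hS
    obtain ⟨Q, e, e1, hQ, he1, hee, hord⟩ := below_emb (t i) hQ'
    rcases hω (κ i) P hP Q e hQ D S hD hS with h2 | h2
    · left
      change t i (ω (κ i) D) = 0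
      rw [h2, map_zero]
    · right
      change _ ≤ ((Q'.ord (t i (ω (κ i) D)) : ℤ) : ℚ)
      rw [hord, hee]
      push_cast
      push_cast at h2
      have h3 : (0 : ℚ) ≤ e1 := Nat.cast_nonneg _
      calc (e1 : ℚ) * e * (1 * Λ P - S.card * Δ P) = e1 * (e * (1 * Λ P - S.card * Δ P)) := by ring
        _ ≤ e1 * Q.ord (ω (κ i) D) := mul_le_mul_of_nonneg_left h2 h3
  have hval : value (detPol n) τ E = (Matrix.of fun i j => t i (ω (κ i) (fun _ => E j))).det :=
    aeval_detPol _
  have hval0 : value (detPol n) τ E ≠ 0 := by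
    rw [hval]
    exact ht
  constructor
  · obtain ⟨m, hm, Φ, h1, h2, -⟩ := tensor_section (L := Ω) hy hn hτ le_rfl (c := 0)
      (F := fun _ => detPol n) (fun _ => detPol_invariant n) hval0 (by
        rw [algebraicIndependent_empty_type_iff]
        exact (algebraMap ℂ Ω).injective)
    exact ⟨m, hm, Φ 0, E, h1 0, h2 0⟩
  · intro c hc
    obtain ⟨m, hm, g, hg, hg0, hind⟩ := hc
    refine tensor_kappa (L := Ω) hy hn hn1 hτ le_rfl (detPol_invariant n) hval0 hm
      (hg 0) hg0 (h := fun l => algebraMap K Ω (g l.succ / g 0)) ?_ fun l =>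
        Or.inr ⟨g l.succ, hg l.succ, rfl⟩
    have h1 : AlgebraicIndependent ℂ (fun l : Fin c => (IsScalarTower.toAlgHom ℂ K Ω)
        (g l.succ / g 0)) := hind.map' (f := IsScalarTower.toAlgHom ℂ K Ω)
          (algebraMap K Ω).injective
    exact h1

end

end Pool.Agent.V8H84.ST
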