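import Pool.Agent.V8H84.ST.Defs
import Pool.Agent.R887.Frm
import Pool.Agent.Y191.DimGe

/-!
# Invariants of orbifold tensors
-/

set_option autoImplicit false
set_option linter.overlappingInstances false
set_option linter.unusedSectionVars false

open FF Pool.Agent.W602.GT Pool.Agent.W603.LV Pool.Agent.Y172 Pool.Agent.Y191
open Pool.Agent.R887 (IsFunctionSection IitakaGe)

namespace Pool.Agent.V8H84.ST

section ge

variable {K : Type} [Field K] [Algebra ℂ K]

/-- the order is at least the rational number `c` -/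
def GeQ (P : Place ℂ K) (c : ℚ) (f : K) : Prop := f = 0 ∨ c ≤ (P.ord f : ℚ)

variable {P : Place ℂ K} {c c' : ℚ} {f g : K}

theorem GeQ.mono (h : GeQ P c f) (hc : c' ≤ c) : GeQ P c' f := h.imp_right hc.trans

theorem GeQ.zero : GeQ P c 0 := Or.inl rfl

theorem GeQ.mul (hf : GeQ P c f) (hg : GeQ P c' g) : GeQ P (c + c') (f * g) := by
  by_cases h0 : f = 0
  · exact Or.inl (by rw [h0, zero_mul])
  by_cases h1 : g = 0
  · exact Or.inl (by rw [h1, mul_zero])
  right
  rw [P.ord_mul h0 h1]
  push_cast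
  exact add_le_add (hf.resolve_left h0) (hg.resolve_left h1)

theorem GeQ.one : GeQ P 0 (1 : K) := Or.inr (by rw [P.ord_one]; simp)

theorem GeQ.pow (hf : GeQ P c f) (m : ℕ) : GeQ P (m * c) (f ^ m) := by
  induction m with
  | zero => simpa using GeQ.one
  | succ m ih =>
    rw [pow_succ]
    refine (ih.mul hf).mono (le_of_eq ?_)
    push_cast
    ring

theorem GeQ.add (hf : GeQ P c f) (hg : GeQ P c g) : GeQ P c (f + g) := by
  by_cases h0 : f = 0
  · rwa [h0, zero_add]
  by_cases h1 : g = 0
  · rwa [h1, add_zero]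
  by_cases h2 : f + g = 0
  · exact Or.inl h2
  right
  have h3 := P.ord_add h0 h1 h2
  rcases min_le_iff.1 h3 with h4 | h4
  · exact (hf.resolve_left h0).trans (by exact_mod_cast h4)
  · exact (hg.resolve_left h1).trans (by exact_mod_cast h4)

theorem GeQ.sum {ι : Type*} (S : Finset ι) {f : ι → K} (h : ∀ i ∈ S, GeQ P c (f i)) :
    GeQ P c (∑ i ∈ S, f i) := by
  classical
  induction S using Finset.induction_on with
  | empty => exact GeQ.zero
  | insert a S ha ih =>
    rw [Finset.sum_insert ha]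
    exact (h a (Finset.mem_insert_self _ _)).add
      (ih fun i hi => h i (Finset.mem_insert_of_mem hi))

theorem GeQ.prod {ι : Type*} (S : Finset ι) {f : ι → K} {c : ι → ℚ}
    (h : ∀ i ∈ S, GeQ P (c i) (f i)) : GeQ P (∑ i ∈ S, c i) (∏ i ∈ S, f i) := by
  classical
  induction S using Finset.induction_on with
  | empty => simpa using GeQ.one
  | insert a S ha ih =>
    rw [Finset.sum_insert ha, Finset.prod_insert ha]
    exact (h a (Finset.mem_insert_self _ _)).mul
      (ih fun i hi => h i (Finset.mem_insert_of_mem hi))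

theorem GeQ.const (a : ℂ) : GeQ P 0 (algebraMap ℂ K a) := by
  by_cases h : a = 0
  · exact Or.inl (by rw [h, map_zero])
  · exact Or.inr (by rw [P.ord_const h]; simp)

end ge

section value

variable {K : Type} [Field K] [Algebra ℂ K] {L : Type} [Field L] [Algebra ℂ L]
  [Algebra K L] [IsScalarTower ℂ K L] {n s : ℕ} {r : Fin s → ℕ}
  {τ : ∀ k, MultilinearMap K (fun _ : Fin (r k) => Derivation ℂ K K) L}

theorem components_subst (A : Matrix (Fin n) (Fin n) K) (D : Fin n → Derivation ℂ K K) :
    components τ (fun i => ∑ j, A i j • D j) = act (A.map (algebraMap K L)) (components τ D) := by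
  funext I
  unfold components act
  rw [MultilinearMap.map_sum]
  refine Finset.sum_congr rfl fun J _ => ?_
  rw [MultilinearMap.map_smul_univ, Algebra.smul_def, map_prod]
  rfl

/-- the values of a relative invariant change by a power of the determinant -/
theorem value_law {F : MvPolynomial (Idx r n) ℂ} {N : ℕ} (hF : IsInvariant F N)
    (A : Matrix (Fin n) (Fin n) K) (D : Fin n → Derivation ℂ K K) :
    value F τ (fun i => ∑ j, A i j • D j) = algebraMap K L A.det ^ N * value F τ D := by
  unfold value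
  rw [components_subst, hF.over]
  congr 2
  exact (RingHom.map_det (algebraMap K L) A).symm

variable {P : Place ℂ K} {yP : Fin n → K} {EP : Fin n → Derivation ℂ K K} {i0 : Fin n}

theorem loc_log (hl : Loc P yP EP i0) {i : Fin n} (hi : i ≠ i0) : DerLog P (EP i) := by
  have h1 := hl.log i
  have h2 : lc yP i0 i = 1 := if_neg hi
  rwa [h2, one_smul] at h1

/-- the order of the value of an invariant in an adapted frame -/
theorem value_ord (hl : Loc P yP EP i0) {Q : Place ℂ L} {e : ℕ} {δ lam : ℚ}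
    (hτ : ∀ k, ∀ (D : Fin (r k) → Derivation ℂ K K) (S : Finset (Fin (r k))),
      (∀ i, DerReg P (D i)) → (∀ i, i ∉ S → DerLog P (D i)) →
        τ k D = 0 ∨ e * (r k * lam - S.card * δ) ≤ Q.ord (τ k D))
    {F : MvPolynomial (Idx r n) ℂ} {N : ℕ} (hF : IsInvariant F N) :
    GeQ Q (e * (n * N * lam - N * δ)) (value F τ EP) := by
  classical
  have hcomp : ∀ I : Idx r n, GeQ Q (e * (r I.1 * lam - cnt i0 I * δ)) (components τ EP I) := by
    intro I
    exact hτ I.1 (fun i => EP (I.2 i)) (Finset.univ.filter fun i => I.2 i = i0)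
      (fun i => hl.pres _) (fun i hi => loc_log hl fun h => hi (by simp [h]))
  unfold value
  rw [MvPolynomial.aeval_def, MvPolynomial.eval₂_eq']
  refine GeQ.sum _ fun m hm => ?_
  have h1 : GeQ Q (∑ I, (m I : ℚ) * (e * (r I.1 * lam - cnt i0 I * δ)))
      (∏ I, components τ EP I ^ m I) := GeQ.prod _ fun I _ => (hcomp I).pow (m I)
  have h2 : ∑ I, (m I : ℚ) * (e * (r I.1 * lam - cnt i0 I * δ)) =
      e * (n * N * lam - N * δ) := by
    have h3 : (∑ I, (m I : ℚ) * r I.1) = n * N := by
      have := hF.sum_order hm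
      exact_mod_cast this
    have h4 : (∑ I, (m I : ℚ) * cnt i0 I) = N := by
      have := hF.sum_cnt i0 hm
      exact_mod_cast this
    have h5 : ∀ I : Idx r n, (m I : ℚ) * (e * (r I.1 * lam - cnt i0 I * δ)) =
        e * ((m I : ℚ) * r I.1 * lam - (m I : ℚ) * cnt i0 I * δ) := fun I => by ring
    rw [Finset.sum_congr rfl fun I _ => h5 I, ← Finset.mul_sum, Finset.sum_sub_distrib,
      ← Finset.sum_mul, ← Finset.sum_mul, h3, h4]
  rw [h2] at h1
  have h6 := (GeQ.const (P := Q) (MvPolynomial.coeff m F)).mul h1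
  rwa [zero_add] at h6

end value

section pair

variable {K : Type} [Field K] [Algebra ℂ K] {n M : ℕ} {y : Fin (M + 1) → K}

theorem coef_apply (N n : ℕ) (Δ Λ : Place ℂ K → ℚ) (P : Place ℂ K) :
    (N • (Δ - n • Λ)) P = N * (Δ P - n * Λ P) := by
  rw [Pi.smul_apply, Pi.sub_apply, Pi.smul_apply, nsmul_eq_mul, nsmul_eq_mul]

/-- a form is a section if its order in adapted frames is large -/
theorem isSection_of_loc (hy : NormalModel y) (hn : Algebra.trdeg ℂ K = n) {N : ℕ}
    {D : Place ℂ K → ℚ} {ω : (Fin n → Derivation ℂ K K) → K} (hω : IsPluri N ω)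
    (h : ∀ P, IsPrimeDivisor y P → ∀ (yP : Fin n → K) (EP : Fin n → Derivation ℂ K K)
      (i0 : Fin n), Loc P yP EP i0 → GeQ P (-(D P)) (ω EP)) : IsSection y n N D ω := by
  have hess := hy.ess
  refine ⟨hω, fun P hP => ?_⟩
  obtain ⟨yP, EP, i0, hl⟩ := exists_loc hn (hP.divisorial hy hn)
  exact (ordGe_iff hl hω).2 (h P hP yP EP i0 hl)

theorem exists_frame (hn : Algebra.trdeg ℂ K = n) :
    ∃ (x : Fin n → K) (E : Fin n → Derivation ℂ K K), IsTranscendenceBasis ℂ x ∧
      (∀ i j, E i (x j) = if i = j then 1 else 0) ∧ IsFrame E := by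
  obtain ⟨x, E, hx, hE⟩ := exists_crd hn (k := ℂ) (K := K)
  exact ⟨x, E, hx, hE, fun G =>
    ⟨fun j => G (x j), (Pool.Agent.W73.PG.PULL.expand x hx E hE G).symm⟩⟩

/-- the Kodaira dimension is at least the Iitaka dimension -/
theorem KappaGe.le (hy : NormalModel y) (hn : Algebra.trdeg ℂ K = n) {Δ : Place ℂ K → ℚ}
    (hΔ : Effective y Δ) {c : ℕ} (h : KappaGe y n Δ c) : (c : WithBot ℕ) ≤ kodairaDim y n Δ := by
  have hess := hy.ess
  obtain ⟨m, hm, Φ, hΦ, D, hD, hind⟩ := h
  obtain ⟨x, E, hx, hE, hfr⟩ := exists_frame hn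
  exact dims_ge (a := n) hΔ hfr (fun A hA => Pool.Agent.R887.sec_growth hy hn hΔ hA E)
    (m0 := m) hm (ω := Φ) hΦ (E := D) hD hind

/-- nonvanishing in terms of the Kodaira dimension -/
theorem kappaGe_zero {Δ : Place ℂ K → ℚ} (h : 0 ≤ kodairaDim y n Δ) : KappaGe y n Δ 0 := by
  by_contra hno
  have h1 : kodairaDim y n Δ = ⊥ := by
    unfold kodairaDim
    rw [if_pos]
    intro m hm _
    unfold h0
    have h2 : Submodule.span ℂ {ω | IsSection y n m (m • Δ) ω} = ⊥ := by
      rw [Submodule.span_eq_bot]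
      intro ω hω
      funext D
      by_contra hD
      refine hno ⟨m, hm, fun _ => ω, fun _ => hω, D, hD, ?_⟩
      rw [algebraicIndependent_empty_type_iff]
      exact (algebraMap ℂ K).injective
    rw [h2, finrank_bot]
  rw [h1] at h
  exact absurd h (by simp)

end pair

end Pool.Agent.V8H84.ST
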